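import Pool.Agent.H43.PL.H53.MIX.WinQ

/-!
# MIX ContraQ: `Contra` with a parameter `Q2`

Copy and adapt `Pool.Agent.H53.MID.contra` (file `H53/MID/Contra.lean`, complete), using `win_q` in place of `win`.
-/

set_option autoImplicit false

namespace Pool.Agent.H53.MIX

open Finset MeasureTheory
open Pool.Agent.H91.PK (ee)
open Pool.Agent.H53.MID

private theorem ContraQ_int {D : ℝ → ℝ} (hD0 : ∀ u, 0 ≤ D u)
    (hint : Integrable (fun u => D u ^ 2)) (p q : ℝ) : IntegrableOn D (Set.Icc p q) := by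
  have hm : AEStronglyMeasurable D volume := by
    have h := Real.continuous_sqrt.comp_aestronglyMeasurable hint.aestronglyMeasurable
    refine h.congr (Filter.Eventually.of_forall fun u => ?_)
    exact Real.sqrt_sq (hD0 u)
  have h1 : IntegrableOn (fun u => (1 + D u ^ 2) / 2) (Set.Icc p q) := by
    have h2 : IntegrableOn (fun _ : ℝ => (1 : ℝ)) (Set.Icc p q) := by
      rw [integrableOn_const_iff]
      right
      rw [Real.volume_Icc]
      exact ENNReal.ofReal_lt_top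
    exact (h2.add hint.integrableOn).div_const 2
  refine Integrable.mono' h1 hm.restrict (Filter.Eventually.of_forall fun u => ?_)
  rw [Real.norm_of_nonneg (hD0 u)]
  nlinarith [sq_nonneg (D u - 1)]

private theorem ContraQ_cs {D : ℝ → ℝ} (hD0 : ∀ u, 0 ≤ D u)
    (hint : Integrable (fun u => D u ^ 2)) {p q M : ℝ} (hpq : p < q) (hM : 0 ≤ M)
    (h : M ≤ ∫ u in Set.Icc p q, D u) : M ^ 2 / (q - p) ≤ ∫ u, D u ^ 2 := by
  have hD := ContraQ_int hD0 hint p q
  have hl : 0 < q - p := sub_pos.2 hpq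
  set c : ℝ := M / (q - p) with hc
  have hc0 : 0 ≤ c := div_nonneg hM hl.le
  have h1 : 2 * c * ∫ u in Set.Icc p q, D u ≤ ∫ u in Set.Icc p q, (D u ^ 2 + c ^ 2) := by
    rw [← integral_const_mul]
    refine integral_mono (hD.const_mul _) ?_ fun u => ?_
    · refine hint.integrableOn.add ?_
      rw [integrableOn_const_iff]
      right
      rw [Real.volume_Icc]
      exact ENNReal.ofReal_lt_top
    · show 2 * c * D u ≤ D u ^ 2 + c ^ 2
      nlinarith [sq_nonneg (D u - c)]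
  have h2 : ∫ u in Set.Icc p q, (D u ^ 2 + c ^ 2) =
      (∫ u in Set.Icc p q, D u ^ 2) + (q - p) * c ^ 2 := by
    rw [integral_add hint.integrableOn]
    · congr 1
      rw [setIntegral_const, Measure.real, Real.volume_Icc, ENNReal.toReal_ofReal hl.le]
      rfl
    · rw [integrable_const_iff]
      right
      rw [isFiniteMeasure_restrict, Real.volume_Icc]
      exact ENNReal.ofReal_ne_top
  have h3 : ∫ u in Set.Icc p q, D u ^ 2 ≤ ∫ u, D u ^ 2 :=
    setIntegral_le_integral hint (Filter.Eventually.of_forall fun u => sq_nonneg _)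
  have h4 : 2 * c * M ≤ 2 * c * ∫ u in Set.Icc p q, D u :=
    mul_le_mul_of_nonneg_left h (by positivity)
  have h5 : M ^ 2 / (q - p) = 2 * c * M - (q - p) * c ^ 2 := by
    rw [hc]
    field_simp
    ring
  rw [h5]
  linarith

theorem contra_q (C : ℝ) (hC : 1 ≤ C) (A C1 : ℕ) : ∃ L0 : ℝ, 1 ≤ L0 ∧ ∀ (L Q2 : ℝ) (n H P w0 X Xf : ℕ) (f : ℕ → ℝ) (a T : ℝ)
    (F1 : Finset ℕ) (α : ℕ → ℝ),
    L0 ≤ L → 1 ≤ Q2 → 100 * C ≤ n → 1 ≤ w0 → 1 ≤ P → w0 * P * (Q2 * L ^ (A + 4)) ≤ H → SqB f w0 Xf L →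
    8 * C * n * H ≤ Xf → 4 * C * n * H ≤ X → (∀ i ∈ F1, (n : ℝ) / C ≤ i ∧ (i : ℝ) ≤ C * n) →
    n / L ^ C1 ≤ (F1.card : ℝ) → |T| ≤ Q2 * (n : ℝ) ^ 2 →
    (∀ i ∈ F1, nz (α i - a - T / (i * H)) ≤ Q2 / H) → (∀ i ∈ F1, H / L ^ A ≤ ‖Bs (Fp f P) H i (α i)‖) →
    Integrable (fun u => ‖Dw (cc f P a T) X (1 / (n * (Q2 * L ^ (A + 3)))) u‖ ^ 2) →
    (1 / (n * (Q2 * L ^ (A + 3)))) ^ 2 * ((n : ℝ) * H) ^ 2 / L ^ (2 * A + 2 * C1 + 1) ≤
      ∫ u, ‖Dw (cc f P a T) X (1 / (n * (Q2 * L ^ (A + 3)))) u‖ ^ 2 := by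
  obtain ⟨L1, hL1, hw⟩ := win_q C hC A
  refine ⟨max L1 (4 * Real.log (2 * C ^ 2)), le_max_of_le_left hL1, ?_⟩
  intro L Q2 n H P w0 X Xf f a T F1 α hL hQ hn hw0 hP hH hSq hXf hX hF1 hcard hT hnz hBs hint
  have hLL : L1 ≤ L := (le_max_left _ _).trans hL
  have hL4 : 4 * Real.log (2 * C ^ 2) ≤ L := (le_max_right _ _).trans hL
  have hL0 : 1 ≤ L := hL1.trans hLL
  have hLp : 0 < L := by linarith
  have hC0 : 0 < C := by linarith
  have hn1 : (100 : ℝ) ≤ n := by nlinarith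
  have hn0 : (0 : ℝ) < n := by linarith
  have hw0' : (1 : ℝ) ≤ w0 := by exact_mod_cast hw0
  have hP' : (1 : ℝ) ≤ P := by exact_mod_cast hP
  have hH1 : (1 : ℝ) ≤ H := by
    refine le_trans ?_ hH
    have h1 : (1 : ℝ) ≤ Q2 * L ^ (A + 4) := one_le_mul_of_one_le_of_one_le hQ (one_le_pow₀ hL0)
    have h2 : (1 : ℝ) ≤ w0 * P := one_le_mul_of_one_le_of_one_le hw0' hP'
    exact one_le_mul_of_one_le_of_one_le h2 h1
  have hH0 : (0 : ℝ) < H := by linarith
  have hQ0 : 0 < Q2 := by linarith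
  set θ : ℝ := 1 / (n * (Q2 * L ^ (A + 3))) with hθ
  have hθ0 : 0 < θ := by positivity
  set D : ℝ → ℝ := fun u => ‖Dw (cc f P a T) X θ u‖ with hD
  have hD0 : ∀ u, 0 ≤ D u := fun u => norm_nonneg _
  have hint' : Integrable (fun u => D u ^ 2) := hint
  set p : ℝ := Real.log (n * H / C) with hp
  set q : ℝ := Real.log (2 * C * n * H) with hq
  have hqp : q - p = Real.log (2 * C ^ 2) := by
    rw [hq, hp, ← Real.log_div (by positivity) (by positivity)]
    congr 1
    field_simp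
  have hlog : 0 < Real.log (2 * C ^ 2) := Real.log_pos (by nlinarith)
  have hpq : p < q := by linarith
  have hI := ContraQ_int hD0 hint' p q
  have hi0 : ∀ i ∈ F1, (0 : ℝ) < i := fun i hi => lt_of_lt_of_le (by positivity) (hF1 i hi).1
  have hsub : ∀ i ∈ F1, Set.Ico (Real.log (i * H)) (Real.log ((i + 1) * H)) ⊆ Set.Icc p q := by
    intro i hi u hu
    have h1 := (hF1 i hi).1
    have h2 := (hF1 i hi).2
    have h3 := hi0 i hi
    refine ⟨le_trans ?_ hu.1, hu.2.le.trans ?_⟩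
    · refine Real.log_le_log (by positivity) ?_
      rw [mul_div_right_comm]
      exact mul_le_mul_of_nonneg_right h1 hH0.le
    · refine Real.log_le_log (by positivity) ?_
      have : (i : ℝ) + 1 ≤ 2 * C * n := by nlinarith
      exact mul_le_mul_of_nonneg_right this hH0.le
  have hdisj : Set.Pairwise (F1 : Set ℕ)
      (Function.onFun Disjoint fun i : ℕ => Set.Ico (Real.log (i * H)) (Real.log ((i + 1) * H))) := by
    intro i hi j hj hij
    have key : ∀ i ∈ F1, ∀ j ∈ F1, i < j → Disjoint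
        (Set.Ico (Real.log ((i : ℝ) * H)) (Real.log ((i + 1) * H)))
        (Set.Ico (Real.log ((j : ℝ) * H)) (Real.log ((j + 1) * H))) := by
      intro i hi j hj hlt
      rw [Set.disjoint_left]
      intro u hu hv
      have h1 : ((i : ℝ) + 1) * H ≤ j * H := by
        refine mul_le_mul_of_nonneg_right ?_ hH0.le
        exact_mod_cast hlt
      have h2 : Real.log (((i : ℝ) + 1) * H) ≤ Real.log (j * H) :=
        Real.log_le_log (by positivity) h1
      exact absurd (hu.2.trans_le (h2.trans hv.1)) (lt_irrefl _)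
    rcases lt_or_gt_of_ne hij with h | h
    · exact key i hi j hj h
    · exact (key j hj i hi h).symm
  have hsum : ∑ i ∈ F1, ∫ u in Set.Ico (Real.log ((i : ℝ) * H)) (Real.log ((i + 1) * H)), D u ≤
      ∫ u in Set.Icc p q, D u := by
    rw [← integral_biUnion_finset F1 (fun i _ => measurableSet_Ico) hdisj
      (fun i hi => hI.mono_set (hsub i hi))]
    refine setIntegral_mono_set hI (Filter.Eventually.of_forall fun u => hD0 u) ?_
    exact (Set.iUnion₂_subset hsub).eventuallyLE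
  have hone : ∀ i ∈ F1, θ * H / (2 * L ^ A) ≤
      ∫ u in Set.Ico (Real.log ((i : ℝ) * H)) (Real.log ((i + 1) * H)), D u := by
    intro i hi
    rw [← integral_Icc_eq_integral_Ico]
    exact hw L Q2 n H P w0 X Xf i f a T (α i) hLL hQ hn hw0 hP hH hSq hXf hX (hF1 i hi).1 (hF1 i hi).2 hT
      (hnz i hi) (hBs i hi)
  have hlow : (F1.card : ℝ) * (θ * H / (2 * L ^ A)) ≤ ∫ u in Set.Icc p q, D u := by
    refine le_trans ?_ hsum
    rw [← nsmul_eq_mul]
    exact Finset.card_nsmul_le_sum F1 _ _ hone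
  have hM : n / L ^ C1 * (θ * H / (2 * L ^ A)) ≤ ∫ u in Set.Icc p q, D u :=
    (mul_le_mul_of_nonneg_right hcard (by positivity)).trans hlow
  have h := ContraQ_cs hD0 hint' hpq (by positivity) hM
  refine le_trans ?_ h
  rw [hqp]
  have e1 : (n / L ^ C1 * (θ * H / (2 * L ^ A))) ^ 2 / Real.log (2 * C ^ 2) =
      θ ^ 2 * ((n : ℝ) * H) ^ 2 / (L ^ (2 * A + 2 * C1) * (4 * Real.log (2 * C ^ 2))) := by
    have : L ^ (2 * A + 2 * C1) = (L ^ A) ^ 2 * (L ^ C1) ^ 2 := by ring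
    rw [this]
    field_simp
    ring
  rw [e1, pow_succ]
  refine div_le_div_of_nonneg_left (by positivity) (by positivity) ?_
  exact mul_le_mul_of_nonneg_left hL4 (by positivity)

end Pool.Agent.H53.MIX
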